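import Pool.Agent.H24.KTH.Top

/-!
# KTH, row SEC: a random section

The first space is `(V → Ω) × Ω` with the product law (`V` = the values of `v`); it is glued with
`Ω` over the pair (direction, line).
-/

set_option autoImplicit false

namespace Pool.Agent.H24.KTH

open Finset Real
open Pool.Agent.H49.Ent Pool.Agent.H32.Dense

namespace SecAux

variable {Ω : Type} [Fintype Ω] {V : Type} [Fintype V] [DecidableEq V]

lemma sum_prod (c : V → Ω → ℝ) (h : ∀ x, ∑ ω, c x ω = 1) :
    ∑ R : V → Ω, ∏ x, c x (R x) = 1 := by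
  classical
  have h1 := Finset.prod_univ_sum (fun _ : V => (univ : Finset Ω)) (fun x ω => c x ω)
  rw [Fintype.piFinset_univ] at h1
  rw [← h1]
  simp [h]

/-- the coordinates of a product law -/
lemma marg_pi (c : V → Ω → ℝ) (h : ∀ x, ∑ ω, c x ω = 1) (x : V) :
    Marg (fun R : V → Ω => ∏ y, c y (R y)) (c x) (fun R => R x) := by
  classical
  intro ω
  have h1 := Finset.prod_univ_sum (fun _ : V => (univ : Finset Ω))
    (fun y ω' => if y = x then (if ω' = ω then c x ω' else 0) else c y ω')
  rw [Fintype.piFinset_univ] at h1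
  have h2 : ∏ y, ∑ ω', (if y = x then (if ω' = ω then c x ω' else 0) else c y ω') = c x ω := by
    rw [Finset.prod_eq_single x]
    · simp
    · intro b _ hb
      simp [hb, h]
    · intro hx
      exact absurd (Finset.mem_univ x) hx
  rw [← h2, h1]
  refine Finset.sum_congr rfl fun R _ => ?_
  by_cases hR : R x = ω
  · rw [if_pos hR]
    refine Finset.prod_congr rfl fun y _ => ?_
    by_cases hy : y = x
    · subst hy
      simp [hR]
    · simp [hy]
  · rw [if_neg hR]
    exact (Finset.prod_eq_zero (Finset.mem_univ x) (by simp [hR])).symm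

end SecAux

open SecAux in
theorem sec : SECStmt := by
  classical
  intro Ω _ p hp h1 S T v l hlv
  let vv : Ω → {x : S // x ∈ univ.image v} := fun ω => ⟨v ω, mem_image_of_mem v (mem_univ ω)⟩
  let c : {x : S // x ∈ univ.image v} → Ω → ℝ :=
    fun x => if law p v x.1 = 0 then p else cond p v x.1
  have hc0 : ∀ x ω, 0 ≤ c x ω := by
    intro x ω
    simp only [c]
    split_ifs
    · exact hp ω
    · exact cond_nonneg hp v x.1 ω
  have hc1 : ∀ x, ∑ ω, c x ω = 1 := by
    intro x
    simp only [c]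
    split_ifs with h
    · exact h1
    · exact sum_cond p v h
  let q : ({x : S // x ∈ univ.image v} → Ω) → ℝ := fun R => ∏ x, c x (R x)
  have hq0 : ∀ R, 0 ≤ q R := fun R => Finset.prod_nonneg fun x _ => hc0 x (R x)
  have hq1 : ∑ R, q R = 1 := sum_prod c hc1
  have hu : ∀ z : Unit, law q (fun _ => ()) z = law p (fun _ => ()) z := by
    intro z
    simp [law, hq1, h1]
  have hu1 : ∀ z : Unit, law q (fun _ => ()) z = 1 := by
    intro z
    simp [law, hq1]
  let p₁ : ({x : S // x ∈ univ.image v} → Ω) × Ω → ℝ := glue q p (fun _ => ()) (fun _ => ())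
  have hp₁ : ∀ w, 0 ≤ p₁ w := glue_nonneg hq0 hp
  have hp₁' : ∀ R ω, p₁ (R, ω) = q R * p ω := by
    intro R ω
    simp only [p₁, glue, if_true]
    rw [hu1, div_one]
  let Y₁ : ({x : S // x ∈ univ.image v} → Ω) × Ω → S × T :=
    fun w => (v w.2, l (w.1 (vv w.2)))
  let Y₂ : Ω → S × T := fun ω => (v ω, l ω)
  have hY : ∀ z, law p₁ Y₁ z = law p Y₂ z := by
    rintro ⟨x, y⟩
    by_cases hx : law p v x = 0
    · have e1 : law p Y₂ (x, y) = 0 := by
        refine le_antisymm ?_ (law_nonneg hp _ _)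
        rw [← hx]
        unfold law
        refine Finset.sum_le_sum fun ω _ => ?_
        simp only [Y₂, Prod.mk.injEq]
        by_cases h2 : v ω = x <;> by_cases h3 : l ω = y <;> simp [h2, h3, hp ω]
      have e2 : law p₁ Y₁ (x, y) = 0 := by
        refine le_antisymm ?_ (law_nonneg hp₁ _ _)
        have e3 : law p₁ (fun w => v w.2) x = law p v x := law_glue_snd hp hu v x
        rw [← hx, ← e3]
        unfold law
        refine Finset.sum_le_sum fun w _ => ?_
        simp only [Y₁, Prod.mk.injEq]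
        by_cases h2 : v w.2 = x
        · by_cases h3 : l (w.1 (vv w.2)) = y
          · simp [h2, h3]
          · simp [h2, h3, hp₁ w]
        · simp [h2]
      rw [e1, e2]
    · have hmem : x ∈ univ.image v := by
        by_contra h
        exact hx (law_eq_zero_of_notMem p v h)
      have e0 : law q (fun R => l (R ⟨x, hmem⟩)) y = law (cond p v x) l y := by
        have := (marg_pi c hc1 ⟨x, hmem⟩).law l y
        rw [show (fun R : {x : S // x ∈ univ.image v} → Ω => ∏ y, c y (R y)) = q from rfl] at this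
        rw [this]
        simp only [c]
        rw [if_neg hx]
      have e1 : law p₁ Y₁ (x, y) = law q (fun R => l (R ⟨x, hmem⟩)) y * law p v x := by
        unfold law
        rw [Fintype.sum_prod_type, Finset.sum_mul_sum]
        refine Finset.sum_congr rfl fun R _ => Finset.sum_congr rfl fun ω _ => ?_
        rw [hp₁']
        simp only [Y₁, Prod.mk.injEq]
        by_cases h2 : v ω = x
        · have h4 : vv ω = ⟨x, hmem⟩ := Subtype.ext h2
          rw [h4]
          by_cases h3 : l (R ⟨x, hmem⟩) = y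
          · simp [h2, h3]
          · simp [h3]
        · simp [h2]
      rw [e1, e0, law_cond, div_mul_cancel₀ _ hx]
      unfold law
      refine Finset.sum_congr rfl fun ω _ => ?_
      simp only [Y₂, Prod.mk.injEq]
      by_cases h2 : v ω = x <;> by_cases h3 : l ω = y <;> simp [h2, h3]
  have hg := glue_nonneg (Z₁ := Y₁) (Z₂ := Y₂) hp₁ hp
  have key : ∀ w, 0 < glue p₁ p Y₁ Y₂ w → v w.1.2 = v w.2 ∧ l (w.1.1 (vv w.2)) = l w.2 := by
    intro w hw
    obtain ⟨_, _, h3⟩ := (glue_pos_iff hp₁ hp w).mp hw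
    simp only [Y₁, Y₂, Prod.mk.injEq] at h3
    have h4 : vv w.1.2 = vv w.2 := Subtype.ext h3.1
    exact ⟨h3.1, by rw [← h4]; exact h3.2⟩
  refine ⟨_, _, glue p₁ p Y₁ Y₂, _, fun w x => l (w.1.1 x), fun w => w.2, hg,
    marg_snd hp hY, ?_, ?_, ?_⟩
  · intro w w' hw hw' e
    simp only [Prod.mk.injEq] at e
    have k1 := key w hw
    have k2 := key w' hw'
    have h4 : vv w.2 = vv w'.2 := Subtype.ext e.1
    have h5 := congrFun e.2 (vv w.2)
    rw [k1.2, h4, k2.2] at h5
    exact h5
  · have e1 : H (glue p₁ p Y₁ Y₂) (fun w => (v w.2, fun x => l (w.1.1 x))) =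
        H p₁ (fun w => ((fun x => l (w.1 x)), v w.2)) := by
      rw [← H_glue_fst hp₁ hY]
      refine H_congr hg ?_ ?_
      · intro w w' hw hw' e
        simp only [Prod.mk.injEq] at e ⊢
        rw [← (key w hw).1, ← (key w' hw').1]
        exact ⟨e.2, e.1⟩
      · intro w w' hw hw' e
        simp only [Prod.mk.injEq] at e ⊢
        rw [(key w hw).1, (key w' hw').1]
        exact ⟨e.2, e.1⟩
    have e2 : H (glue p₁ p Y₁ Y₂) (fun w => fun x => l (w.1.1 x)) =
        H q (fun R => fun x => l (R x)) := by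
      rw [H_glue_fst hp₁ hY (fun w => fun x => l (w.1 x))]
      exact H_glue_fst hq0 hu (fun R => fun x => l (R x))
    have e3 : H p₁ (fun w => ((fun x => l (w.1 x)), v w.2)) =
        H q (fun R => fun x => l (R x)) + H p v := by
      have := H_glue_pair hq0 hp hu (X := fun R => fun x => l (R x)) (Y := v)
        (fun _ _ _ _ _ => rfl) (fun _ _ _ _ _ => rfl)
      rw [H_const hq1, sub_zero] at this
      exact this
    unfold CH
    rw [e1, e2, e3]
    ring
  · intro U X
    have hlY : Det p l Y₂ := by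
      intro ω ω' a b e
      simp only [Y₂, Prod.mk.injEq]
      exact ⟨hlv ω ω' a b e, e⟩
    have e1 := CH_glue_snd hp₁ hp hY X (Y := l) (fun w => fun x => l (w.1 x)) hlY
    rw [← e1]
    unfold CH
    have d1 : ∀ w w', 0 < glue p₁ p Y₁ Y₂ w → 0 < glue p₁ p Y₁ Y₂ w' → l w.2 = l w'.2 →
        v w.2 = v w'.2 := by
      intro w w' hw hw' e
      exact hlv _ _ ((glue_pos_iff hp₁ hp w).mp hw).2.1 ((glue_pos_iff hp₁ hp w').mp hw').2.1 e
    have d2 : ∀ w w', 0 < glue p₁ p Y₁ Y₂ w → 0 < glue p₁ p Y₁ Y₂ w' → v w.2 = v w'.2 →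
        (fun x => l (w.1.1 x)) = (fun x => l (w'.1.1 x)) → l w.2 = l w'.2 := by
      intro w w' hw hw' e e'
      have h4 : vv w.2 = vv w'.2 := Subtype.ext e
      have h5 := congrFun e' (vv w.2)
      rw [(key w hw).2, h4, (key w' hw').2] at h5
      exact h5
    have a1 : H (glue p₁ p Y₁ Y₂) (fun w => (X w.2, (l w.2, fun x => l (w.1.1 x)))) =
        H (glue p₁ p Y₁ Y₂) (fun w => (X w.2, (v w.2, fun x => l (w.1.1 x)))) := by
      refine H_congr hg ?_ ?_
      · intro w w' hw hw' e
        simp only [Prod.mk.injEq] at e ⊢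
        exact ⟨e.1, d2 w w' hw hw' e.2.1 e.2.2, e.2.2⟩
      · intro w w' hw hw' e
        simp only [Prod.mk.injEq] at e ⊢
        exact ⟨e.1, d1 w w' hw hw' e.2.1, e.2.2⟩
    have a2 : H (glue p₁ p Y₁ Y₂) (fun w => (l w.2, fun x => l (w.1.1 x))) =
        H (glue p₁ p Y₁ Y₂) (fun w => (v w.2, fun x => l (w.1.1 x))) := by
      refine H_congr hg ?_ ?_
      · intro w w' hw hw' e
        simp only [Prod.mk.injEq] at e ⊢
        exact ⟨d2 w w' hw hw' e.1 e.2, e.2⟩
      · intro w w' hw hw' e
        simp only [Prod.mk.injEq] at e ⊢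
        exact ⟨d1 w w' hw hw' e.1, e.2⟩
    rw [a1, a2]

end Pool.Agent.H24.KTH
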